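import Pool.Agent.H97.PRK.Targets

/-!
Row AME: the filter of the final segments of a homogeneous set is amenable to HOD.
-/

set_option autoImplicit false

namespace Pool.Agent.H21.PRK

open _root_.HD HD.PRK
open Ordinal Cardinal Order Set
open scoped ZFSet

universe u

/-- the relation coded by a function of sets is definable -/
theorem AME_dr {f : ZFSet.{u}} (hf : OD f) :
    DO fun w : ℕ → Ordinal.{u} => ∃ Y, ZFSet.pair (w 0).toZFSet Y ∈ f ∧ (w 1).toZFSet ∈ Y := by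
  refine ⟨fun v => ∃ Y, ZFSet.pair (v 0) Y ∈ f ∧ v 1 ∈ Y, ?_, fun w => Iff.rfl⟩
  refine DZ.od (R := fun b v => ∃ Y, ZFSet.pair (v 0) Y ∈ b ∧ v 1 ∈ Y) hf ?_
  exact DZ.ex (R := fun Y v => ZFSet.pair (v 1) Y ∈ v 0 ∧ v 2 ∈ Y)
    ((loc_pmem 2 0 1).dz.and (DZ.mem 3 0))

/-- the coded set `X` -/
theorem AME_ds {t : Ordinal.{u} → Ordinal.{u} → Ordinal.{u}}
    (ht : DO fun w => w 2 = t (w 0) (w 1)) {f : ZFSet.{u}} (hf : OD f) (β : Ordinal.{u}) :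
    DS {x | ∃ n < β, ∃ a < β, x = t n a ∧ ∃ Y, ZFSet.pair n.toZFSet Y ∈ f ∧ a.toZFSet ∈ Y} := by
  refine DO.exLtc (R := fun n w => ∃ a < β, w 0 = t n a ∧
    ∃ Y, ZFSet.pair n.toZFSet Y ∈ f ∧ a.toZFSet ∈ Y) β ?_
  refine DO.exLtc (R := fun a w => w 1 = t (w 0) a ∧
    ∃ Y, ZFSet.pair (w 0).toZFSet Y ∈ f ∧ a.toZFSet ∈ Y) β ?_
  exact (DO.s3 (X := fun a b c => c = t a b) ht 1 0 2).and
    (DO.s2 (X := fun n a => ∃ Y, ZFSet.pair n.toZFSet Y ∈ f ∧ a.toZFSet ∈ Y) (AME_dr hf) 1 0)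

/-- the set `s` -/
theorem AME_s {t : Ordinal.{u} → Ordinal.{u} → Ordinal.{u}}
    (ht : DO fun w => w 2 = t (w 0) (w 1)) {E0 g : ZFSet.{u}} (hE : OD E0) (hg : OD g)
    (μ κ : Ordinal.{u}) :
    DS {n | ¬ Pos μ κ {b | b.toZFSet ∈ E0 ∧ (t n b).toZFSet ∉ g}} := by
  have h1 : DO fun w : ℕ → Ordinal.{u} => (t (w 3) (w 0)).toZFSet ∈ g := by
    refine (DO.ex (R := fun x w => x = t (w 3) (w 0) ∧ x.toZFSet ∈ g)
      ((DO.s3 (X := fun a b c => c = t a b) ht 4 1 0).and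
        (DO.s1 (X := fun x => x.toZFSet ∈ g) (OD.ds hg) 0))).congr fun w => ?_
    simp
  have h2 : DO fun w : ℕ → Ordinal.{u} => Pos (w 0) (w 1)
      {b | b.toZFSet ∈ E0 ∧ (t (w 2) b).toZFSet ∉ g} :=
    HD.All.da 0 1 (fun b w => b.toZFSet ∈ E0 ∧ (t (w 2) b).toZFSet ∉ g)
      ((DO.s1 (X := fun x => x.toZFSet ∈ E0) (OD.ds hE) 0).and h1.not)
  have h3 : DO fun w : ℕ → Ordinal.{u} => Pos μ (w 0)
      {b | b.toZFSet ∈ E0 ∧ (t (w 1) b).toZFSet ∉ g} :=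
    DO.sub (R := fun x w => Pos x (w 0) {b | b.toZFSet ∈ E0 ∧ (t (w 1) b).toZFSet ∉ g}) μ h2
  have h4 : DO fun w : ℕ → Ordinal.{u} => Pos μ κ
      {b | b.toZFSet ∈ E0 ∧ (t (w 0) b).toZFSet ∉ g} :=
    DO.sub (R := fun x w => Pos μ x {b | b.toZFSet ∈ E0 ∧ (t (w 0) b).toZFSet ∉ g}) κ h3
  exact h4.not

theorem pf_AME : T_AME.{u} := by
  intro en M K c C t e h A hA β hβ hβ0 hub f y hf hfun
  have hlt : ∀ x < β, x < K.ord := fun x hx => lt_of_lt_of_le hx hβ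
  -- the coded set
  set X : Set Ordinal.{u} := {x | ∃ n < β, ∃ a < β, x = t n a ∧
    ∃ Y, ZFSet.pair n.toZFSet Y ∈ f ∧ a.toZFSet ∈ Y} with hX
  have hds : DS X := AME_ds h.tdo hf.od β
  -- it is `e z ∩ β`
  have hz : ∃ z < β, ∀ n < β, ∀ a < β, (n.toZFSet = n.toZFSet) →
      ((t n a).toZFSet ∈ e z ↔ ∃ Y, ZFSet.pair n.toZFSet Y ∈ f ∧ a.toZFSet ∈ Y) := by
    have key : ∀ g : ZFSet.{u}, (∀ n < β, ∀ a < β, (t n a).toZFSet ∈ g ↔
        t n a ∈ X) → ∀ n < β, ∀ a < β, (n.toZFSet = n.toZFSet) →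
      ((t n a).toZFSet ∈ g ↔ ∃ Y, ZFSet.pair n.toZFSet Y ∈ f ∧ a.toZFSet ∈ Y) := by
      intro g hg n hn a ha _
      rw [hg n hn a ha]
      constructor
      · rintro ⟨n', _, a', _, he, hY⟩
        obtain ⟨rfl, rfl⟩ := h.tinj _ _ _ _ he
        exact hY
      · intro hY
        exact ⟨n, hn, a, ha, rfl, hY⟩
    rcases lt_or_eq_of_le hβ with hlt' | heq
    · have hβC : β ∈ C := by
        refine h.clb.cls β hlt' hβ0 fun η hη => ?_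
        obtain ⟨a, ha, h1, h2⟩ := hub η hη
        exact ⟨a, h2, h1, (hA a ha).1⟩
      obtain ⟨z, hz, he⟩ := h.ve1 β hβC hlt' (os β X) (hod_os hds β) (fun y hy => by
        obtain ⟨a, ha, -, rfl⟩ := mem_os.1 hy
        exact toZFSet_mem_toZFSet_iff.2 ha)
      refine ⟨z, hz, key (e z) fun n hn a ha => ?_⟩
      have ht : t n a < β := (h.cl β hβC hlt').2 n hn a ha
      have h1 : (t n a).toZFSet ∈ os β X ↔ t n a ∈ X := by
        rw [ord_mem_os]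
        exact ⟨fun h => h.2, fun h => ⟨ht, h⟩⟩
      rw [← h1, he, ZFSet.mem_inter]
      exact ⟨fun h => ⟨h, toZFSet_mem_toZFSet_iff.2 ht⟩, fun h => h.1⟩
    · obtain ⟨z, hz, he⟩ := h.ve2 (os K.ord X) (hod_os hds K.ord) (fun y hy => by
        obtain ⟨a, ha, -, rfl⟩ := mem_os.1 hy
        exact toZFSet_mem_toZFSet_iff.2 ha)
      refine ⟨z, heq ▸ hz, key (e z) fun n hn a ha => ?_⟩
      have ht : t n a < K.ord := h.tlt n (hlt n hn) a (hlt a ha)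
      rw [← he, ord_mem_os]
      exact ⟨fun h => h.2, fun h => ⟨ht, h⟩⟩
  obtain ⟨z, hz, hez⟩ := hz
  have hEn : OD (en c) := (h.hen.od _).2 ⟨c, rfl⟩
  have hDS := AME_s h.tdo hEn (h.he z).1.od M.ord K.ord
  refine ⟨os β {n | ¬ Pos M.ord K.ord {b | b.toZFSet ∈ en c ∧ (t n b).toZFSet ∉ e z}},
    hod_os hDS β, fun n => ?_⟩
  rw [ord_mem_os]
  have hdec : ∀ n < β, ∀ a ∈ A, z < a → n < a → a < β → ((t n a).toZFSet ∈ e z ↔
      ¬ Pos M.ord K.ord {b | b.toZFSet ∈ en c ∧ (t n b).toZFSet ∉ e z}) := by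
    intro n hn a ha h1 h2 h3
    exact h.dec z (hlt z hz) n (hlt n hn) a (hA a ha).1 (hA a ha).2.1 (hA a ha).2.2 h1 h2
      (hlt a h3)
  constructor
  · rintro ⟨hn, hs⟩
    refine ⟨hn, ?_⟩
    obtain ⟨Y, hY, hYu⟩ := hfun.2 n.toZFSet (toZFSet_mem_toZFSet_iff.2 hn)
    refine ⟨Y, hY, ?_⟩
    obtain ⟨a0, _, h1, h2⟩ := hub (max z n) (max_lt hz hn)
    refine ⟨a0, h2, fun a ha hη hlt' => ?_⟩
    have hza : z < a := lt_of_lt_of_le (lt_of_le_of_lt (le_max_left _ _) h1) hη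
    have hna : n < a := lt_of_lt_of_le (lt_of_le_of_lt (le_max_right _ _) h1) hη
    have h3 := (hdec n hn a ha hza hna hlt').2 hs
    obtain ⟨Y', hY', ha'⟩ := (hez n hn a hlt' rfl).1 h3
    have := hYu Y' hY'
    rwa [this] at ha'
  · rintro ⟨hn, Y, hY, η, hη, hYA⟩
    refine ⟨hn, ?_⟩
    obtain ⟨a, ha, h1, h2⟩ := hub (max η (max z n)) (max_lt hη (max_lt hz hn))
    have hη' : η < a := lt_of_le_of_lt (le_max_left _ _) h1
    have hza : z < a := lt_of_le_of_lt ((le_max_left _ _).trans (le_max_right _ _)) h1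
    have hna : n < a := lt_of_le_of_lt ((le_max_right _ _).trans (le_max_right _ _)) h1
    exact (hdec n hn a ha hza hna h2).1 ((hez n hn a h2 rfl).2 ⟨Y, hY, hYA a ha hη'.le h2⟩)

end Pool.Agent.H21.PRK
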